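import Pool.Agent.Lib.helper3.Asy

open Filter Topology
open scoped ENNReal

namespace Pool.Agent.Results.MP_c26838_an.Example

/-- A commutative unital complex Banach algebra with `‖1‖ = 1`. -/
structure CBA where
  X : Type
  [ring : NormedCommRing X]
  [alg : NormedAlgebra ℂ X]
  [one : NormOneClass X]
  [cpl : CompleteSpace X]

instance (A : CBA) : NormedCommRing A.X := A.ring

instance (A : CBA) : NormOneClass A.X := A.one

/-- A seminormed commutative ring. -/
structure SN where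
  X : Type
  [ring : SeminormedCommRing X]

instance (B : SN) : SeminormedCommRing B.X := B.ring

/-- The underlying normed ring. -/
def CBA.sn (A : CBA) : SN := ⟨A.X⟩

/-- The algebra `ℓ^∞(Aₙ)`. -/
noncomputable def linf (A : ℕ → CBA) : SN := ⟨lp (fun n => (A n).X) ∞⟩

/-- The norm of the `n`-th term. -/
noncomputable def nrm (A : ℕ → CBA) (a : (linf A).X) (n : ℕ) : ℝ := ‖a.1 n‖

/-- Null sequences. -/
def null (A : ℕ → CBA) : Set (linf A).X := {a | Tendsto (nrm A a) atTop (𝓝 0)}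

lemma null_add (A : ℕ → CBA) {a b : (linf A).X} (ha : a ∈ null A) (hb : b ∈ null A) :
    a + b ∈ null A := squeeze_zero (fun _ => norm_nonneg _)
    (fun n => norm_add_le (a.1 n) (b.1 n)) (by simpa [nrm] using Tendsto.add ha hb)

lemma null_zero (A : ℕ → CBA) : 0 ∈ null A :=
  tendsto_const_nhds.congr fun n => (norm_zero (E := (A n).X)).symm

lemma null_smul (A : ℕ → CBA) (c : (linf A).X) {a : (linf A).X} (ha : a ∈ null A) :
    c • a ∈ null A := squeeze_zero (fun _ => norm_nonneg _)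
    (fun n => (norm_mul_le (c.1 n) (a.1 n)).trans (mul_le_mul_of_nonneg_right
      (lp.norm_apply_le_norm ENNReal.top_ne_zero c n) (norm_nonneg _)))
    ((Tendsto.const_mul ‖c‖ ha).trans_eq (congrArg 𝓝 (mul_zero ‖c‖)))

/-- The ideal `c₀(Aₙ)` of null sequences in `ℓ^∞(Aₙ)`. -/
def c0 (A : ℕ → CBA) : Ideal (linf A).X := ⟨⟨⟨null A, null_add A⟩, null_zero A⟩, null_smul A⟩

/-- The quotient by an ideal, with the quotient norm. -/
noncomputable def quo (B : SN) (I : Ideal B.X) : SN := ⟨B.X ⧸ I⟩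

/-- Stable rank one: the invertible elements are norm-dense. -/
def SR1 (B : SN) : Prop :=
  ∀ x : B.X, ∀ ε : ℝ, 0 < ε → ∃ u : B.X, IsUnit u ∧ ‖x - u‖ < ε

lemma sr1_of (B : SN) (I : Ideal B.X) (h : ∀ (a : B.X) (ε : ℝ), 0 < ε →
    ∃ u v : B.X, u * v - 1 ∈ I ∧ ‖a - u‖ ≤ 2 * ε) : SR1 (quo B I) := fun x ε hε => by
  obtain ⟨a, rfl⟩ := Ideal.Quotient.mk_surjective x
  obtain ⟨u, v, h1, h2⟩ := h a (ε / 3) (by positivity)
  exact ⟨Ideal.Quotient.mk I u, IsUnit.of_mul_eq_one (Ideal.Quotient.mk I v)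
    (Ideal.Quotient.eq.2 h1),
    (Ideal.Quotient.norm_mk_le I (a - u)).trans_lt (h2.trans_lt (by linarith))⟩

open Pool.Agent.Lib.helper3.AS in
/-- A sequence of commutative unital Banach algebras, none of stable rank one, whose asymptotic
sequence algebra has stable rank one. -/
theorem result : ∃ A : ℕ → CBA, SR1 (quo (linf A) (c0 A)) ∧ ∀ n, ¬ SR1 (A n).sn := by
  obtain ⟨B, _, _, _, _, z, hz⟩ := exists_B
  refine ⟨fun n => ⟨Al B n⟩, sr1_of _ _ fun a ε hε => approx (B := B) a hε, fun n h => ?_⟩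
  obtain ⟨u, hu, h1⟩ := h (mkAl n 0 z) (1 / 2) (by norm_num)
  exact h1.not_ge (far_gen z hz n u hu)

end Pool.Agent.Results.MP_c26838_an.Example
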